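import Pool.Agent.Y538.Par.Sums

/-!
# From a partial weighted matrix multiplication tensor to a direct sum of full ones
-/

set_option autoImplicit false
set_option linter.unusedSectionVars false

namespace Pool.Agent.Y538.Par

open Polynomial Finset Filter Pool.Agent.H515R2.MMR

section mix

variable {I J K : Type} [Fintype I] [Fintype J] [Fintype K] [DecidableEq I] [DecidableEq J]
  [DecidableEq K]

lemma lag {v : J → ℂ} (hv : Function.Injective v) (s : Finset J) (f : ℂ[X])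
    (hf : f.degree < s.card) (d : ℕ) :
    ∑ i ∈ s, (Lagrange.basis s v i).coeff d * f.eval (v i) = f.coeff d := by
  have h := Lagrange.eq_interpolate (s := s) (v := v) (f := f) hv.injOn hf
  conv_rhs => rw [h]
  rw [Lagrange.interpolate_apply, Polynomial.finsetSum_coeff]
  refine Finset.sum_congr rfl fun i _ => ?_
  rw [Polynomial.coeff_C_mul]
  ring

/-- Schönhage's mixing for one slice. -/
lemma mix {p q : ℕ} (A : I → J → ℂ) (ι : Fin p → I) (hι : Function.Injective ι)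
    (hrow : ∀ α, q ≤ (univ.filter fun j => A (ι α) j ≠ 0).card) :
    ∃ (X : I → J → Fin p → Fin q → ℂ) (Y : J → Fin q → ℂ) (Z : I → Fin p → ℂ),
      ∀ α β β' α', ∑ i, ∑ j, X i j α β * (Y j β' * (Z i α' * A i j)) =
        if α = α' ∧ β = β' then 1 else 0 := by
  classical
  let v : J → ℂ := fun j => (((Fintype.equivFin J j : Fin _) : ℕ) : ℂ)
  have hv : Function.Injective v := by
    intro i j h
    have h1 : ((Fintype.equivFin J i : Fin _) : ℕ) = ((Fintype.equivFin J j : Fin _) : ℕ) :=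
      Nat.cast_injective (R := ℂ) h
    exact (Fintype.equivFin J).injective (Fin.ext h1)
  let S : Fin p → Finset J := fun α => univ.filter fun j => A (ι α) j ≠ 0
  refine ⟨fun i j α β => if i = ι α then (A i j)⁻¹ * (Lagrange.basis (S α) v j).coeff β else 0,
    fun j β => v j ^ (β : ℕ), fun i α => if i = ι α then 1 else 0, ?_⟩
  intro α β β' α'
  rw [Fintype.sum_eq_single (ι α)]
  swap
  · intro i hi
    refine Finset.sum_eq_zero fun j _ => ?_
    simp only [if_neg hi, zero_mul]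
  simp only [if_true]
  have h1 : ∀ j, (A (ι α) j)⁻¹ * (Lagrange.basis (S α) v j).coeff β *
      (v j ^ (β' : ℕ) * ((if ι α = ι α' then (1 : ℂ) else 0) * A (ι α) j)) =
      (if ι α = ι α' then (1 : ℂ) else 0) * (if j ∈ S α then
        (Lagrange.basis (S α) v j).coeff β * (X ^ (β' : ℕ) : ℂ[X]).eval (v j) else 0) := by
    intro j
    by_cases hj : A (ι α) j = 0
    · have : j ∉ S α := by simp [S, hj]
      rw [if_neg this, hj]; simp
    · have : j ∈ S α := by simp [S, hj]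
      rw [if_pos this, eval_pow, eval_X]
      field_simp
  rw [Finset.sum_congr rfl fun j _ => h1 j, ← Finset.mul_sum, Finset.sum_ite_mem, univ_inter,
    lag hv (S α) (X ^ (β' : ℕ)) (by
      rw [degree_X_pow]
      exact_mod_cast lt_of_lt_of_le β'.2 (hrow α)) β, coeff_X_pow]
  by_cases h2 : α = α'
  · by_cases h3 : β = β'
    · simp [h2, h3]
    · have : ¬ ((β : ℕ) = (β' : ℕ)) := fun h => h3 (Fin.ext h)
      simp [h3, this]
  · have : ¬ ι α = ι α' := fun h => h2 (hι h)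
    simp [h2, this]

lemma tri_sum3 {P X Y Z : Type*} [Fintype P] [Fintype X] [Fintype Y] [Fintype Z] (A : X → ℂ)
    (B : Y → ℂ) (D : Z → ℂ) (A' : P → X → ℂ) (B' : P → Y → ℂ) (D' : P → Z → ℂ) :
    ∑ p, (∑ x, A x * A' p x) * (∑ x, B x * B' p x) * (∑ x, D x * D' p x) =
      ∑ x, ∑ y, ∑ z, A x * (B y * (D z * ∑ p, A' p x * B' p y * D' p z)) := by
  have h1 : ∀ p, (∑ x, A x * A' p x) * (∑ x, B x * B' p x) * (∑ x, D x * D' p x) =
      ∑ x, ∑ y, ∑ z, A x * (B y * (D z * (A' p x * B' p y * D' p z))) := by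
    intro p
    rw [Finset.sum_mul_sum, Finset.sum_mul]
    refine Finset.sum_congr rfl fun x _ => ?_
    rw [Finset.sum_mul]
    refine Finset.sum_congr rfl fun y _ => ?_
    rw [Finset.mul_sum]
    exact Finset.sum_congr rfl fun z _ => by ring
  simp_rw [h1]
  rw [Finset.sum_comm]
  refine Finset.sum_congr rfl fun x _ => ?_
  rw [Finset.sum_comm]
  refine Finset.sum_congr rfl fun y _ => ?_
  rw [Finset.sum_comm]
  refine Finset.sum_congr rfl fun z _ => ?_
  simp only [Finset.mul_sum]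

lemma prod3 {r : ℕ} (f g h : Fin r → ℂ) :
    ∑ l : Fin r × Fin r × Fin r, f l.1 * g l.2.1 * h l.2.2 = (∑ l, f l) * (∑ l, g l) * ∑ l, h l := by
  rw [Fintype.sum_prod_type]
  simp_rw [Fintype.sum_prod_type]
  rw [Finset.sum_mul_sum, Finset.sum_mul]
  refine Finset.sum_congr rfl fun x _ => ?_
  rw [Finset.sum_mul]
  refine Finset.sum_congr rfl fun y _ => ?_
  rw [Finset.mul_sum]

variable {r m p q : ℕ}

/-- first exponent -/
def e1 (a b : ℕ) : ℕ := 2 * a * b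
/-- second exponent -/
def e2 (b c : ℕ) : ℕ := ((b : ℤ) - c).natAbs ^ 2
/-- third exponent -/
def e3 (m c a : ℕ) : ℕ := ((a : ℤ) - c).natAbs ^ 2 + ((2 * m) ^ 2 - c ^ 2)

lemma e_sum {m a b c : ℕ} (hc : c ≤ 2 * m) :
    e1 a b + e2 b c + e3 m c a = (2 * m) ^ 2 + ((a : ℤ) + b - c).natAbs ^ 2 := by
  unfold e1 e2 e3
  have h1 : c ^ 2 ≤ (2 * m) ^ 2 := Nat.pow_le_pow_left hc 2
  zify [h1]
  rw [sq_abs, sq_abs, sq_abs]
  ring

/-- **The main construction.** -/
theorem build (t : I → J → K → ℂ) (u : Fin r → I × J → ℂ) (v : Fin r → J × K → ℂ)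
    (w : Fin r → K × I → ℂ)
    (H : ∀ (x : I × J) (y : J × K) (z : K × I), ∑ l, u l x * v l y * w l z =
      if x.2 = y.1 ∧ y.2 = z.1 ∧ z.2 = x.1 then t x.1 x.2 y.2 else 0)
    (κ : Fin (2 * m - 1) → K) (hκ : Function.Injective κ)
    (hgood : ∀ c, ∃ ι : Fin p → I, Function.Injective ι ∧
      ∀ α, q ≤ (univ.filter fun j => t (ι α) j (κ c) ≠ 0).card) :
    BRk (DSM (Fin m × Fin m) (Fin p × Fin q)) (r ^ 3) := by
  classical
  have hmix : ∀ c, ∃ (X : I → J → Fin p → Fin q → ℂ) (Y : J → Fin q → ℂ) (Z : I → Fin p → ℂ),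
      ∀ α β β' α', ∑ i, ∑ j, X i j α β * (Y j β' * (Z i α' * t i j (κ c))) =
        if α = α' ∧ β = β' then 1 else 0 := by
    intro c
    obtain ⟨ι, hι, hrow⟩ := hgood c
    exact mix (fun i j => t i j (κ c)) ι hι hrow
  choose X' Y' Z' hXYZ using hmix
  let uh : Fin (2 * m - 1) → Fin r → Fin p → Fin q → ℂ := fun c l α β =>
    ∑ x : I × J, X' c x.1 x.2 α β * u l x
  let vh : Fin (2 * m - 1) → Fin r → Fin q → K → ℂ := fun c l β k => ∑ j, Y' c j β * v l (j, k)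
  let wh : Fin (2 * m - 1) → Fin r → K → Fin p → ℂ := fun c l k α => ∑ i, Z' c i α * w l (k, i)
  have hF : ∀ c c' c'' α β β' α' k' k'', ∑ l, uh c l α β * vh c' l β' k' * wh c'' l k'' α' =
      ∑ i, ∑ j, X' c i j α β * (Y' c' j β' * (Z' c'' i α' * if k' = k'' then t i j k' else 0)) := by
    intro c c' c'' α β β' α' k' k''
    simp only [uh, vh, wh]
    rw [tri_sum3 (fun x : I × J => X' c x.1 x.2 α β) (fun j => Y' c' j β')
      (fun i => Z' c'' i α') (fun l x => u l x) (fun l j => v l (j, k')) (fun l i => w l (k'', i)),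
      Fintype.sum_prod_type]
    refine Finset.sum_congr rfl fun i _ => Finset.sum_congr rfl fun j _ => ?_
    rw [Fintype.sum_eq_single j, Fintype.sum_eq_single i]
    · rw [H]
      simp
    · intro i' hi'
      rw [H]
      simp [hi']
    · intro j' hj'
      refine Finset.sum_eq_zero fun i' _ => ?_
      rw [H]
      have : ¬ j = j' := fun h => hj' h.symm
      simp [this]
  have hF0 : ∀ c c' c'' α β β' α', c' ≠ c'' →
      ∑ l, uh c l α β * vh c' l β' (κ c') * wh c'' l (κ c'') α' = 0 := by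
    intro c c' c'' α β β' α' hne
    rw [hF]
    refine Finset.sum_eq_zero fun i _ => Finset.sum_eq_zero fun j _ => ?_
    rw [if_neg (fun h => hne (hκ h))]
    ring
  have hF1 : ∀ c α β β' α',
      ∑ l, uh c l α β * vh c l β' (κ c) * wh c l (κ c) α' =
        if α = α' ∧ β = β' then 1 else 0 := by
    intro c α β β' α'
    rw [hF, ← hXYZ c α β β' α']
    refine Finset.sum_congr rfl fun i _ => Finset.sum_congr rfl fun j _ => ?_
    rw [if_pos rfl]
  -- the three labels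
  let ca : Fin m × Fin m → Fin (2 * m - 1) := fun σ => ⟨σ.1, by have := σ.1.2; omega⟩
  let cb : Fin m × Fin m → Fin (2 * m - 1) := fun σ => ⟨σ.2, by have := σ.2.2; omega⟩
  let cc : Fin m × Fin m → Fin (2 * m - 1) := fun σ => ⟨σ.1 + σ.2, by
    have := σ.1.2; have := σ.2.2; omega⟩
  let U : Fin r × Fin r × Fin r → (Fin m × Fin m) × (Fin p × Fin q) × (Fin p × Fin q) → ℂ :=
    fun l x => uh (cc x.1) l.1 x.2.1.1 x.2.2.2 * vh (cb x.1) l.2.1 x.2.1.2 (κ (cb x.1)) *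
      wh (ca x.1) l.2.2 (κ (ca x.1)) x.2.2.1
  let V : Fin r × Fin r × Fin r → (Fin m × Fin m) × (Fin p × Fin q) × (Fin p × Fin q) → ℂ :=
    fun l y => vh (cc y.1) l.1 y.2.1.2 (κ (cc y.1)) * wh (cb y.1) l.2.1 (κ (cb y.1)) y.2.2.1 *
      uh (ca y.1) l.2.2 y.2.1.1 y.2.2.2
  let W : Fin r × Fin r × Fin r → (Fin m × Fin m) × (Fin p × Fin q) × (Fin p × Fin q) → ℂ :=
    fun l z => wh (cc z.1) l.1 (κ (cc z.1)) z.2.2.1 * uh (cb z.1) l.2.1 z.2.1.1 z.2.2.2 *
      vh (ca z.1) l.2.2 z.2.1.2 (κ (ca z.1))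
  have hUVW : ∀ x y z, ∑ l, U l x * V l y * W l z =
      (∑ l, uh (cc x.1) l x.2.1.1 x.2.2.2 * vh (cc y.1) l y.2.1.2 (κ (cc y.1)) *
        wh (cc z.1) l (κ (cc z.1)) z.2.2.1) *
      (∑ l, uh (cb z.1) l z.2.1.1 z.2.2.2 * vh (cb x.1) l x.2.1.2 (κ (cb x.1)) *
        wh (cb y.1) l (κ (cb y.1)) y.2.2.1) *
      (∑ l, uh (ca y.1) l y.2.1.1 y.2.2.2 * vh (ca z.1) l z.2.1.2 (κ (ca z.1)) *
        wh (ca x.1) l (κ (ca x.1)) x.2.2.1) := by
    intro x y z
    rw [← prod3]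
    refine Finset.sum_congr rfl fun l _ => ?_
    simp only [U, V, W]
    ring
  have hcard : Fintype.card (Fin r × Fin r × Fin r) = r ^ 3 := by
    simp [pow_succ, mul_assoc]
  rw [← hcard]
  refine BRk.of_fintype ((2 * m) ^ 2)
    (fun l x => Polynomial.X ^ (e1 x.1.1 x.1.2) * C (U l x))
    (fun l y => Polynomial.X ^ (e2 y.1.2 (y.1.1 + y.1.2)) * C (V l y))
    (fun l z => Polynomial.X ^ (e3 m (z.1.1 + z.1.2) z.1.1) * C (W l z)) ?_
  intro x y z
  have hsum : ∑ l, (Polynomial.X ^ (e1 x.1.1 x.1.2) * C (U l x)) *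
      (Polynomial.X ^ (e2 y.1.2 (y.1.1 + y.1.2)) * C (V l y)) *
      (Polynomial.X ^ (e3 m (z.1.1 + z.1.2) z.1.1) * C (W l z)) =
      Polynomial.X ^ (e1 x.1.1 x.1.2 + e2 y.1.2 (y.1.1 + y.1.2) + e3 m (z.1.1 + z.1.2) z.1.1) *
        C (∑ l, U l x * V l y * W l z) := by
    rw [map_sum, Finset.mul_sum]
    refine Finset.sum_congr rfl fun l _ => ?_
    have h5 : C (U l x * V l y * W l z) = C (U l x) * C (V l y) * C (W l z) := by
      generalize U l x = a1
      generalize V l y = a2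
      generalize W l z = a3
      rw [C_mul, C_mul]
    rw [h5, pow_add, pow_add]
    generalize C (U l x) = a1
    generalize C (V l y) = a2
    generalize C (W l z) = a3
    ring
  rw [hsum, hUVW]
  -- cases
  by_cases hC : cc y.1 = cc z.1
  swap
  · refine ⟨0, ?_⟩
    have hD : DSM (Fin m × Fin m) (Fin p × Fin q) x y z = 0 := by
      unfold DSM
      rw [if_neg]
      rintro ⟨_, h, _⟩
      exact hC (by rw [h])
    rw [hF0 _ _ _ _ _ _ _ hC, hD]
    simp
  by_cases hB : cb x.1 = cb y.1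
  swap
  · refine ⟨0, ?_⟩
    have hD : DSM (Fin m × Fin m) (Fin p × Fin q) x y z = 0 := by
      unfold DSM
      rw [if_neg]
      rintro ⟨h, _⟩
      exact hB (by rw [h])
    rw [hF0 _ _ _ _ _ _ _ hB, hD]
    simp
  by_cases hA : ca z.1 = ca x.1
  swap
  · refine ⟨0, ?_⟩
    have hD : DSM (Fin m × Fin m) (Fin p × Fin q) x y z = 0 := by
      unfold DSM
      rw [if_neg]
      rintro ⟨h, h', _⟩
      exact hA (by rw [h, h'])
    rw [hF0 _ _ _ _ _ _ _ hA, hD]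
    simp
  have hC' : (y.1.1 : ℕ) + y.1.2 = z.1.1 + z.1.2 := Fin.ext_iff.mp hC
  have hB' : (x.1.2 : ℕ) = y.1.2 := by
    have h := congrArg (fun c : Fin (2 * m - 1) => (c : ℕ)) hB
    exact h
  have hA' : (z.1.1 : ℕ) = x.1.1 := by
    have h := congrArg (fun c : Fin (2 * m - 1) => (c : ℕ)) hA
    exact h
  have hexp : e1 x.1.1 x.1.2 + e2 y.1.2 (y.1.1 + y.1.2) + e3 m (z.1.1 + z.1.2) z.1.1 =
      (2 * m) ^ 2 + ((x.1.1 : ℤ) + x.1.2 - ((y.1.1 + y.1.2 : ℕ) : ℤ)).natAbs ^ 2 := by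
    rw [← hC', hA', ← hB']
    have h1 := y.1.1.2
    have h2 := x.1.2.2
    exact e_sum (by omega)
  rw [hexp]
  by_cases hE : (x.1.1 : ℕ) + x.1.2 = y.1.1 + y.1.2
  · have hxy : x.1 = y.1 := by
      refine Prod.ext (Fin.ext ?_) (Fin.ext ?_) <;> omega
    have hyz : y.1 = z.1 := by
      refine Prod.ext (Fin.ext ?_) (Fin.ext ?_) <;> omega
    refine ⟨0, ?_⟩
    have h0 : ((x.1.1 : ℤ) + x.1.2 - ((y.1.1 + y.1.2 : ℕ) : ℤ)).natAbs = 0 := by
      rw [← hE]; simp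
    rw [h0, ← hyz, ← hxy, hF1, hF1, hF1]
    have hD : DSM (Fin m × Fin m) (Fin p × Fin q) x y z =
        (if x.2.1.1 = z.2.2.1 ∧ x.2.2.2 = y.2.1.2 then 1 else 0) *
        (if z.2.1.1 = y.2.2.1 ∧ z.2.2.2 = x.2.1.2 then 1 else 0) *
        (if y.2.1.1 = x.2.2.1 ∧ y.2.2.2 = z.2.1.2 then 1 else 0) := by
      unfold DSM
      rw [← hyz, ← hxy]
      simp only [Prod.ext_iff, true_and]
      by_cases g1 : x.2.1.1 = z.2.2.1 <;> by_cases g2 : x.2.2.2 = y.2.1.2 <;>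
        by_cases g3 : z.2.1.1 = y.2.2.1 <;> by_cases g4 : z.2.2.2 = x.2.1.2 <;>
        by_cases g5 : y.2.1.1 = x.2.2.1 <;> by_cases g6 : y.2.2.2 = z.2.1.2 <;>
        simp [g1, g2, g3, g4, g5, g6, eq_comm]
    rw [hD]
    simp
  · have h1 : ((x.1.1 : ℤ) + x.1.2 - ((y.1.1 + y.1.2 : ℕ) : ℤ)).natAbs ≠ 0 := by
      intro h
      rw [Int.natAbs_eq_zero] at h
      push_cast at h
      omega
    have h2 : 1 ≤ ((x.1.1 : ℤ) + x.1.2 - ((y.1.1 + y.1.2 : ℕ) : ℤ)).natAbs ^ 2 :=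
      Nat.one_le_pow _ _ (Nat.pos_of_ne_zero h1)
    obtain ⟨d, hd⟩ := Nat.exists_eq_add_of_le h2
    have hD : DSM (Fin m × Fin m) (Fin p × Fin q) x y z = 0 := by
      unfold DSM
      rw [if_neg]
      rintro ⟨h, _⟩
      exact hE (by rw [h])
    rw [hD, hd]
    generalize (∑ l, uh (cc x.1) l x.2.1.1 x.2.2.2 * vh (cc y.1) l y.2.1.2 (κ (cc y.1)) *
        wh (cc z.1) l (κ (cc z.1)) z.2.2.1) *
      (∑ l, uh (cb z.1) l z.2.1.1 z.2.2.2 * vh (cb x.1) l x.2.1.2 (κ (cb x.1)) *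
        wh (cb y.1) l (κ (cb y.1)) y.2.2.1) *
      (∑ l, uh (ca y.1) l y.2.1.1 y.2.2.2 * vh (ca z.1) l z.2.1.2 (κ (ca z.1)) *
        wh (ca x.1) l (κ (ca x.1)) x.2.2.1) = G
    refine ⟨Polynomial.X ^ d * C G, ?_⟩
    rw [C_0, zero_add, pow_add, pow_add, pow_one]
    ring

end mix

end Pool.Agent.Y538.Par
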