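import Pool.Agent.Y538.Par.Defs
import Pool.Agent.H515R2.MMR.Rank

/-!
# Rank and border rank of tensors: basic facts, the exponent is at least two, and direct sums of
matrix multiplication tensors
-/

set_option autoImplicit false
set_option linter.unusedSectionVars false

namespace Pool.Agent.Y538.Par

open Polynomial Finset Filter Pool.Agent.H515R2.MMR

variable {α β γ α' β' γ' κ : Type*}

theorem Rk.of_fintype [Fintype κ] {T : α → β → γ → ℂ} (u : κ → α → ℂ)
    (v : κ → β → ℂ) (w : κ → γ → ℂ) (h : ∀ a b c, T a b c = ∑ l, u l a * v l b * w l c) :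
    Rk T (Fintype.card κ) := by
  let e := Fintype.equivFin κ
  refine ⟨fun l => u (e.symm l), fun l => v (e.symm l), fun l => w (e.symm l), fun a b c => ?_⟩
  rw [h]
  exact (Equiv.sum_comp e.symm (fun l => u l a * v l b * w l c)).symm

theorem BRk.of_fintype [Fintype κ] {T : α → β → γ → ℂ} (h : ℕ) (u : κ → α → ℂ[X])
    (v : κ → β → ℂ[X]) (w : κ → γ → ℂ[X])
    (H : ∀ a b c, ∃ E : ℂ[X], ∑ l, u l a * v l b * w l c = X ^ h * (C (T a b c) + X * E)) :
    BRk T (Fintype.card κ) := by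
  let e := Fintype.equivFin κ
  refine ⟨h, fun l => u (e.symm l), fun l => v (e.symm l), fun l => w (e.symm l),
    fun a b c => ?_⟩
  obtain ⟨E, hE⟩ := H a b c
  refine ⟨E, ?_⟩
  rw [← hE]
  exact Equiv.sum_comp e.symm (fun l => u l a * v l b * w l c)

theorem Rk.comp {T : α → β → γ → ℂ} {r : ℕ} (h : Rk T r) (f : α' → α) (g : β' → β)
    (k : γ' → γ) : Rk (fun a b c => T (f a) (g b) (k c)) r := by
  obtain ⟨u, v, w, h⟩ := h
  exact ⟨fun l a => u l (f a), fun l b => v l (g b), fun l c => w l (k c), fun a b c => h _ _ _⟩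

theorem Rk.congr {T T' : α → β → γ → ℂ} {r : ℕ} (h : Rk T r) (hT : ∀ a b c, T' a b c = T a b c) :
    Rk T' r := by
  have : T' = T := by funext a b c; exact hT a b c
  rwa [this]

theorem Rk.mono {T : α → β → γ → ℂ} {r r' : ℕ} (h : Rk T r) (hr : r ≤ r') : Rk T r' := by
  obtain ⟨u, v, w, h⟩ := h
  have h2 := Rk.of_fintype (κ := Fin r ⊕ Fin (r' - r)) (T := T)
    (Sum.elim u fun _ _ => 0) (Sum.elim v fun _ _ => 0) (Sum.elim w fun _ _ => 0)
    (fun a b c => by rw [Fintype.sum_sum_type, h]; simp)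
  have h3 : Fintype.card (Fin r ⊕ Fin (r' - r)) = r' := by
    rw [Fintype.card_sum, Fintype.card_fin, Fintype.card_fin]; omega
  rwa [h3] at h2

theorem Rk.toBRk {T : α → β → γ → ℂ} {r : ℕ} (h : Rk T r) : BRk T r := by
  obtain ⟨u, v, w, h⟩ := h
  refine ⟨0, fun l a => C (u l a), fun l b => C (v l b), fun l c => C (w l c),
    fun a b c => ⟨0, ?_⟩⟩
  rw [h, map_sum]
  simp

theorem BRk.comp {T : α → β → γ → ℂ} {r : ℕ} (h : BRk T r) (f : α' → α) (g : β' → β)
    (k : γ' → γ) : BRk (fun a b c => T (f a) (g b) (k c)) r := by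
  obtain ⟨e, u, v, w, h⟩ := h
  exact ⟨e, fun l a => u l (f a), fun l b => v l (g b), fun l c => w l (k c),
    fun a b c => h _ _ _⟩

/-- Kronecker power. -/
def kp (T : α → β → γ → ℂ) (N : ℕ) : (Fin N → α) → (Fin N → β) → (Fin N → γ) → ℂ :=
  fun a b c => ∏ t, T (a t) (b t) (c t)

/-- Powers of approximate decompositions give exact ones. -/
theorem BRk.pow {T : α → β → γ → ℂ} {r : ℕ} (H : BRk T r) :
    ∃ h : ℕ, ∀ N : ℕ, Rk (kp T N) (r ^ N * (N * h + 1) ^ 2) := by
  classical
  obtain ⟨h, u, v, w, hh⟩ := H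
  choose E hE using hh
  refine ⟨h, fun N => ?_⟩
  have key := Rk.of_fintype (κ := (Fin N → Fin r) × Fin (N * h + 1) × Fin (N * h + 1))
    (T := kp T N)
    (fun l a => (∏ s, u (l.1 s) (a s)).coeff l.2.1)
    (fun l b => (∏ s, v (l.1 s) (b s)).coeff l.2.2)
    (fun l c => if (l.2.1 : ℕ) + l.2.2 ≤ N * h then
      (∏ s, w (l.1 s) (c s)).coeff (N * h - l.2.1 - l.2.2) else 0) (fun a b c => by
      rw [Fintype.sum_prod_type]
      simp only [Fintype.sum_prod_type]
      have h1 : ∑ t : Fin N → Fin r, (∏ s, u (t s) (a s)) * (∏ s, v (t s) (b s)) *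
          (∏ s, w (t s) (c s)) = X ^ (N * h) * ∏ s, (C (T (a s) (b s) (c s)) +
            X * E (a s) (b s) (c s)) := by
        calc ∑ t : Fin N → Fin r, (∏ s, u (t s) (a s)) * (∏ s, v (t s) (b s)) *
              (∏ s, w (t s) (c s))
            = ∑ t : Fin N → Fin r, ∏ s, (u (t s) (a s) * v (t s) (b s) * w (t s) (c s)) := by
              refine Finset.sum_congr rfl fun t _ => ?_
              rw [Finset.prod_mul_distrib, Finset.prod_mul_distrib]
          _ = ∏ s, ∑ t : Fin r, (u t (a s) * v t (b s) * w t (c s)) := by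
              rw [Finset.prod_univ_sum, Fintype.piFinset_univ]
          _ = ∏ s, (X ^ h * (C (T (a s) (b s) (c s)) + X * E (a s) (b s) (c s))) :=
              Finset.prod_congr rfl fun s _ => hE _ _ _
          _ = _ := by
              rw [Finset.prod_mul_distrib, Finset.prod_const, Finset.card_univ, Fintype.card_fin,
                ← pow_mul, mul_comm h N]
      have h2 := congrArg (fun p => p.coeff (N * h)) h1
      simp only [Polynomial.finsetSum_coeff] at h2
      rw [Polynomial.coeff_X_pow_mul', if_pos le_rfl, Nat.sub_self,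
        Polynomial.coeff_zero_eq_eval_zero, Polynomial.eval_prod] at h2
      have h3 : ∏ s, Polynomial.eval 0 (C (T (a s) (b s) (c s)) + X * E (a s) (b s) (c s)) =
          kp T N a b c := by
        unfold kp
        refine Finset.prod_congr rfl fun s _ => ?_
        simp
      rw [h3] at h2
      rw [← h2]
      refine Finset.sum_congr rfl fun t _ => ?_
      rw [coeff_triple])
  have hcard : Fintype.card ((Fin N → Fin r) × Fin (N * h + 1) × Fin (N * h + 1)) =
      r ^ N * (N * h + 1) ^ 2 := by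
    simp [pow_two]
  rwa [hcard] at key

/-! ### the exponent is at least two -/

lemma sq_le_of_hasRank {n r : ℕ} (hn : 1 ≤ n) (H : HasRank n r) : n ^ 2 ≤ r := by
  classical
  obtain ⟨a, b, c, hh⟩ := H
  let A : Matrix (Fin n × Fin n) (Fin r) ℂ := fun x t => a t x.1 x.2
  let B : Matrix (Fin r) (Fin n × Fin n) ℂ := fun t x => b t x.2 ⟨0, hn⟩ * c t ⟨0, hn⟩ x.1
  have h1 : A * B = 1 := by
    ext x y
    rw [Matrix.mul_apply, Matrix.one_apply]
    have := hh x.1 x.2 y.2 ⟨0, hn⟩ ⟨0, hn⟩ y.1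
    have e : (∑ t, A x t * B t y) = ∑ t, a t x.1 x.2 * b t y.2 ⟨0, hn⟩ * c t ⟨0, hn⟩ y.1 :=
      Finset.sum_congr rfl fun t _ => by simp only [A, B]; ring
    rw [e, ← this]
    by_cases h : x = y
    · subst h; simp
    · rw [if_neg h, if_neg]
      rintro ⟨h1, -, h2⟩
      exact h (Prod.ext h2.symm h1)
  have h2 := Matrix.rank_mul_le_left A B
  rw [h1, Matrix.rank_one, Fintype.card_prod, Fintype.card_fin] at h2
  have h3 := Matrix.rank_le_width (A := A.submatrix (Fintype.equivFin (Fin n × Fin n)).symm id)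
  have h4 : (A.submatrix (Fintype.equivFin (Fin n × Fin n)).symm id).rank = A.rank := by
    have := Matrix.rank_submatrix A (Fintype.equivFin (Fin n × Fin n)).symm (Equiv.refl (Fin r))
    simpa using this
  rw [h4] at h3
  nlinarith

lemma sq_le_rk (n : ℕ) : n ^ 2 ≤ rk n := by
  rcases Nat.eq_zero_or_pos n with h | h
  · subst h; simp
  · exact sq_le_of_hasRank h (hasRank_rk n)

theorem two_le_omega : 2 ≤ omega := by
  refine le_csInf omega_set_nonempty ?_
  rintro τ ⟨C, hC⟩
  by_contra hcon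
  push Not at hcon
  have t := (tendsto_rpow_atTop (y := 2 - τ) (by linarith)).comp
    (tendsto_natCast_atTop_atTop (R := ℝ))
  obtain ⟨n, hn1, hn2⟩ := ((t.eventually (eventually_gt_atTop C)).and
    (Filter.eventually_ge_atTop 1)).exists
  have hn0 : (0 : ℝ) < n := by exact_mod_cast hn2
  have h1 : ((n ^ 2 : ℕ) : ℝ) ≤ rk n := by exact_mod_cast sq_le_rk n
  have h2 := h1.trans (hC n)
  simp only [Function.comp] at hn1
  have h3 : ((n ^ 2 : ℕ) : ℝ) = (n : ℝ) ^ (2 - τ) * (n : ℝ) ^ τ := by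
    rw [← Real.rpow_add hn0]
    push_cast
    rw [show (2 - τ + τ) = ((2 : ℕ) : ℝ) by push_cast; ring, Real.rpow_natCast]
  rw [h3] at h2
  have h4 : 0 < (n : ℝ) ^ τ := Real.rpow_pos_of_pos hn0 _
  nlinarith

/-- An exponential bound for the rank of the powers bounds the exponent. -/
theorem omega_le_of_pows {Q : ℕ} (hQ : 2 ≤ Q) {a D : ℝ} (ha : 0 < a)
    (h : ∀ N : ℕ, (rk (Q ^ N) : ℝ) ≤ D * a ^ N) : (Q : ℝ) ^ omega ≤ a := by
  have hQ0 : (0 : ℝ) < Q := by exact_mod_cast (by omega : 0 < Q)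
  have hQ1 : (1 : ℝ) < Q := by exact_mod_cast (by omega : 1 < Q)
  -- write `a = Q ^ τ`
  set τ : ℝ := Real.logb Q a with hτ
  have haτ : a = (Q : ℝ) ^ τ := (Real.rpow_logb hQ0 hQ1.ne' ha).symm
  have hτ0 : 0 ≤ τ := by
    by_contra hcon
    push Not at hcon
    have ha1 : a < 1 := by
      rw [haτ]; exact Real.rpow_lt_one_of_one_lt_of_neg hQ1 hcon
    have t : Tendsto (fun N : ℕ => D * a ^ N) atTop (nhds (D * 0)) :=
      (tendsto_pow_atTop_nhds_zero_of_lt_one ha.le ha1).const_mul D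
    rw [mul_zero] at t
    obtain ⟨N, hN⟩ := (t.eventually (gt_mem_nhds (show (0 : ℝ) < 1 by norm_num))).exists
    have h1 : (1 : ℝ) ≤ rk (Q ^ N) := by
      exact_mod_cast one_le_rk (Nat.one_le_pow _ _ (by omega))
    have := h N
    linarith
  have hD : 0 ≤ D := by
    have := h 0
    simp only [pow_zero, mul_one] at this
    have h2 : (0 : ℝ) ≤ rk 1 := Nat.cast_nonneg _
    linarith
  rw [haτ]
  refine Real.rpow_le_rpow_of_exponent_le hQ1.le ?_
  refine csInf_le omega_set_bddBelow ⟨D * a, fun n => ?_⟩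
  rcases Nat.eq_zero_or_pos n with hn | hn
  · subst hn
    have h0 : rk 0 = 0 := by
      have : HasRank 0 0 := ⟨fun _ _ _ => 0, fun _ _ _ => 0, fun _ _ _ => 0,
        fun i => i.elim0⟩
      exact Nat.le_zero.mp (rk_le this)
    rw [h0]
    have : 0 ≤ ((0 : ℕ) : ℝ) ^ τ := Real.rpow_nonneg (by simp) _
    simp only [Nat.cast_zero]
    have h2 := mul_nonneg (mul_nonneg hD ha.le) this
    simpa using h2
  · set N := Nat.clog Q n with hN
    have h1 : n ≤ Q ^ N := Nat.le_pow_clog (by omega) n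
    have h2 : Q ^ N ≤ Q * n := by
      rcases Nat.eq_zero_or_pos N with hz | hz
      · rw [hz, pow_zero]
        exact Nat.succ_le_of_lt (Nat.mul_pos (by omega) hn)
      · have hn2 : 1 < n := by
          by_contra hcon
          have : n = 1 := by omega
          rw [this, Nat.clog_one_right] at hN
          omega
        have := Nat.pow_pred_clog_lt_self (b := Q) (by omega) hn2
        rw [← hN] at this
        calc Q ^ N = Q * Q ^ (N - 1) := by
              rw [← pow_succ']; congr 1; omega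
          _ ≤ Q * n := Nat.mul_le_mul_left _ this.le
    have h3 : (rk n : ℝ) ≤ D * a ^ N := le_trans (by exact_mod_cast rk_mono h1) (h N)
    have h5 : a ^ N ≤ a * (n : ℝ) ^ τ := by
      have e1 : a ^ N = ((Q : ℝ) ^ N) ^ τ := by
        rw [haτ, ← Real.rpow_natCast ((Q : ℝ) ^ τ) N, ← Real.rpow_mul hQ0.le,
          ← Real.rpow_natCast (Q : ℝ) N, ← Real.rpow_mul hQ0.le, mul_comm]
      have e2 : a * (n : ℝ) ^ τ = ((Q : ℝ) * n) ^ τ := by
        rw [Real.mul_rpow hQ0.le (Nat.cast_nonneg n), ← haτ]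
      rw [e1, e2]
      apply Real.rpow_le_rpow (by positivity) _ hτ0
      exact_mod_cast h2
    calc (rk n : ℝ) ≤ D * a ^ N := h3
      _ ≤ D * (a * (n : ℝ) ^ τ) := mul_le_mul_of_nonneg_left h5 hD
      _ = D * a * (n : ℝ) ^ τ := by ring

end Pool.Agent.Y538.Par
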