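import Mathlib

/-!
# Rank and border rank of tensors: definitions
-/

set_option autoImplicit false

namespace Pool.Agent.Y538.Par

open Polynomial

/-- The complex tensor `T` has rank at most `r`. -/
def Rk {α β γ : Type*} (T : α → β → γ → ℂ) (r : ℕ) : Prop :=
  ∃ (u : Fin r → α → ℂ) (v : Fin r → β → ℂ) (w : Fin r → γ → ℂ),
    ∀ a b c, T a b c = ∑ l, u l a * v l b * w l c

/-- The complex tensor `T` has border rank at most `r`: for some `h`, a sum of `r` rank one tensors
with polynomial entries equals `X ^ h * (T + X * E)` with polynomial `E`. -/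
def BRk {α β γ : Type*} (T : α → β → γ → ℂ) (r : ℕ) : Prop :=
  ∃ (h : ℕ) (u : Fin r → α → ℂ[X]) (v : Fin r → β → ℂ[X]) (w : Fin r → γ → ℂ[X]),
    ∀ a b c, ∃ E : ℂ[X], ∑ l, u l a * v l b * w l c = X ^ h * (C (T a b c) + X * E)

/-- The partial weighted matrix multiplication tensor `∑ t i j k • x_ij ⊗ y_jk ⊗ z_ki`. -/
def WT {I J K : Type} [DecidableEq I] [DecidableEq J] [DecidableEq K] (t : I → J → K → ℂ) :
    I × J → J × K → K × I → ℂ := fun x y z =>
  if x.2 = y.1 ∧ y.2 = z.1 ∧ z.2 = x.1 then t x.1 x.2 y.2 else 0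

end Pool.Agent.Y538.Par
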