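import Pool.Agent.Y538.Par.Basic

/-!
# Direct sums of matrix multiplication tensors: the asymptotic sum inequality for equal formats
-/

set_option autoImplicit false
set_option linter.unusedSectionVars false

namespace Pool.Agent.Y538.Par

open Polynomial Finset Filter Pool.Agent.H515R2.MMR

/-- Direct sum, indexed by `S`, of matrix multiplication tensors with index set `I`. -/
def DSM (S I : Type*) [DecidableEq S] [DecidableEq I] : S × I × I → S × I × I → S × I × I → ℂ :=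
  fun x y z => if x.1 = y.1 ∧ y.1 = z.1 ∧ x.2.2 = y.2.1 ∧ y.2.2 = z.2.1 ∧ z.2.2 = x.2.1 then 1
    else 0

section

variable {S I I' : Type} [DecidableEq S] [DecidableEq I] [DecidableEq I'] [Fintype S]
  [Fintype I] [Fintype I']

theorem Rk.DSM_inj {S I S' I' : Type*} [DecidableEq S] [DecidableEq I] [DecidableEq S']
    [DecidableEq I'] {r : ℕ} (h : Rk (DSM S I) r) {f : S' → S} {g : I' → I}
    (hf : Function.Injective f) (hg : Function.Injective g) : Rk (DSM S' I') r := by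
  refine (h.comp (fun x : S' × I' × I' => (f x.1, g x.2.1, g x.2.2))
    (fun x : S' × I' × I' => (f x.1, g x.2.1, g x.2.2))
    (fun x : S' × I' × I' => (f x.1, g x.2.1, g x.2.2))).congr fun x y z => ?_
  simp [DSM, hf.eq_iff, hg.eq_iff]

lemma tri_sum {P X : Type*} [Fintype P] [Fintype X] (A B D : X → ℂ) (A' B' D' : P → X → ℂ) :
    ∑ p, (∑ x, A x * A' p x) * (∑ x, B x * B' p x) * (∑ x, D x * D' p x) =
      ∑ x, ∑ y, ∑ z, A x * B y * D z * ∑ p, A' p x * B' p y * D' p z := by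
  have h1 : ∀ p, (∑ x, A x * A' p x) * (∑ x, B x * B' p x) * (∑ x, D x * D' p x) =
      ∑ x, ∑ y, ∑ z, A x * B y * D z * (A' p x * B' p y * D' p z) := by
    intro p
    rw [Finset.sum_mul_sum, Finset.sum_mul]
    refine Finset.sum_congr rfl fun x _ => ?_
    rw [Finset.sum_mul]
    refine Finset.sum_congr rfl fun y _ => ?_
    rw [Finset.mul_sum]
    exact Finset.sum_congr rfl fun z _ => by ring
  simp_rw [h1]
  rw [Finset.sum_comm]
  refine Finset.sum_congr rfl fun x _ => ?_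
  rw [Finset.sum_comm]
  refine Finset.sum_congr rfl fun y _ => ?_
  rw [Finset.sum_comm]
  refine Finset.sum_congr rfl fun z _ => ?_
  rw [Finset.mul_sum]

/-- One step of the recursion. -/
theorem DSM_rec {a r r' : ℕ} (h : Rk (DSM S I) r) (hr : r ≤ a * Fintype.card S)
    (h' : Rk (DSM S I') r') : Rk (DSM S (I × I')) (a * r') := by
  classical
  obtain ⟨u, v, w, H⟩ := h.mono hr
  obtain ⟨u', v', w', H'⟩ := h'
  have hcard : Fintype.card (Fin a × S) = a * Fintype.card S := by simp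
  let e : Fin a × S ≃ Fin (a * Fintype.card S) := Fintype.equivFinOfCardEq hcard
  have key := Rk.of_fintype (κ := Fin a × Fin r') (T := DSM S (I × I'))
    (fun t x => ∑ σ, u (e (t.1, σ)) (x.1, x.2.1.1, x.2.2.1) * u' t.2 (σ, x.2.1.2, x.2.2.2))
    (fun t x => ∑ σ, v (e (t.1, σ)) (x.1, x.2.1.1, x.2.2.1) * v' t.2 (σ, x.2.1.2, x.2.2.2))
    (fun t x => ∑ σ, w (e (t.1, σ)) (x.1, x.2.1.1, x.2.2.1) * w' t.2 (σ, x.2.1.2, x.2.2.2))
    (by
      rintro ⟨s1, ⟨i1, i1'⟩, ⟨j1, j1'⟩⟩ ⟨s2, ⟨i2, i2'⟩, ⟨j2, j2'⟩⟩ ⟨s3, ⟨i3, i3'⟩, ⟨j3, j3'⟩⟩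
      rw [Fintype.sum_prod_type]
      simp only
      have h1 : ∀ α : Fin a, ∑ p : Fin r',
          (∑ σ, u (e (α, σ)) (s1, i1, j1) * u' p (σ, i1', j1')) *
          (∑ σ, v (e (α, σ)) (s2, i2, j2) * v' p (σ, i2', j2')) *
          (∑ σ, w (e (α, σ)) (s3, i3, j3) * w' p (σ, i3', j3')) =
          if j1' = i2' ∧ j2' = i3' ∧ j3' = i1' then
            ∑ σ, u (e (α, σ)) (s1, i1, j1) * v (e (α, σ)) (s2, i2, j2) *
              w (e (α, σ)) (s3, i3, j3) else 0 := by
        intro α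
        rw [tri_sum (fun σ => u (e (α, σ)) (s1, i1, j1)) (fun σ => v (e (α, σ)) (s2, i2, j2))
          (fun σ => w (e (α, σ)) (s3, i3, j3)) (fun p σ => u' p (σ, i1', j1'))
          (fun p σ => v' p (σ, i2', j2')) (fun p σ => w' p (σ, i3', j3'))]
        simp_rw [← H']
        by_cases hc : j1' = i2' ∧ j2' = i3' ∧ j3' = i1'
        · rw [if_pos hc]
          refine Finset.sum_congr rfl fun σ _ => ?_
          rw [Fintype.sum_eq_single σ, Fintype.sum_eq_single σ]
          · simp [DSM, hc]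
          · intro σ' hσ'
            simp [DSM, hσ'.symm]
          · intro σ' hσ'
            refine Finset.sum_eq_zero fun σ'' _ => ?_
            simp [DSM, hσ'.symm]
        · rw [if_neg hc]
          refine Finset.sum_eq_zero fun σ _ => Finset.sum_eq_zero fun σ' _ =>
            Finset.sum_eq_zero fun σ'' _ => ?_
          have : ¬ (σ = σ' ∧ σ' = σ'' ∧ j1' = i2' ∧ j2' = i3' ∧ j3' = i1') := fun h =>
            hc h.2.2
          simp only [DSM, this, if_false, mul_zero]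
      rw [Finset.sum_congr rfl fun α _ => h1 α]
      have h2 := H (s1, i1, j1) (s2, i2, j2) (s3, i3, j3)
      rw [← Equiv.sum_comp e, Fintype.sum_prod_type] at h2
      by_cases hc : j1' = i2' ∧ j2' = i3' ∧ j3' = i1'
      · simp only [if_pos hc]
        rw [← h2]
        obtain ⟨rfl, rfl, rfl⟩ := hc
        simp [DSM]
      · simp only [if_neg hc, Finset.sum_const_zero]
        have : ¬ (s1 = s2 ∧ s2 = s3 ∧ (j1, j1') = (i2, i2') ∧ (j2, j2') = (i3, i3') ∧
            (j3, j3') = (i1, i1')) := fun h =>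
          hc ⟨(Prod.mk.inj h.2.2.1).2, (Prod.mk.inj h.2.2.2.1).2, (Prod.mk.inj h.2.2.2.2).2⟩
        simp only [DSM, this, if_false])
  have hc2 : Fintype.card (Fin a × Fin r') = a * r' := by simp
  rwa [hc2] at key

theorem DSM_unit [Subsingleton I] : Rk (DSM S I) (Fintype.card S) := by
  refine Rk.of_fintype (κ := S) (fun s x => if s = x.1 then 1 else 0)
    (fun s x => if s = x.1 then 1 else 0) (fun s x => if s = x.1 then 1 else 0) ?_
  intro x y z
  rw [Fintype.sum_eq_single x.1]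
  · have e1 : x.2.2 = y.2.1 := Subsingleton.elim _ _
    have e2 : y.2.2 = z.2.1 := Subsingleton.elim _ _
    have e3 : z.2.2 = x.2.1 := Subsingleton.elim _ _
    unfold DSM
    by_cases h1 : x.1 = y.1
    · by_cases h2 : x.1 = z.1
      · have h3 : y.1 = z.1 := h1.symm.trans h2
        rw [if_pos ⟨h1, h3, e1, e2, e3⟩, if_pos rfl, if_pos h1, if_pos h2]; norm_num
      · have h3 : ¬ y.1 = z.1 := fun h => h2 (h1.trans h)
        rw [if_neg (fun h => h3 h.2.1), if_neg h2]; simp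
    · rw [if_neg (fun h => h1 h.1), if_neg h1]; simp
  · intro s hs
    simp [hs]

theorem DSM_pow {a r : ℕ} (h : Rk (DSM S I) r) (hr : r ≤ a * Fintype.card S) (N : ℕ) :
    Rk (DSM S (Fin N → I)) (a ^ N * Fintype.card S) := by
  induction N with
  | zero => simpa using DSM_unit (S := S) (I := Fin 0 → I)
  | succ N ih =>
    have h1 := DSM_rec h hr ih
    have h2 : Rk (DSM S (Fin (N + 1) → I)) (a * (a ^ N * Fintype.card S)) := by
      refine h1.DSM_inj (f := id) (g := fun x : Fin (N + 1) → I => (x 0, fun t => x t.succ))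
        Function.injective_id ?_
      intro x y hxy
      have e1 := (Prod.mk.inj hxy).1
      have e2 := (Prod.mk.inj hxy).2
      funext t
      refine Fin.cases e1 (fun s => congrFun e2 s) t
    rwa [← mul_assoc, ← pow_succ'] at h2

theorem Rk.toHasRank [Nonempty S] {r n : ℕ} (h : Rk (DSM S I) r) (hn : Fintype.card I = n) :
    HasRank n r := by
  obtain ⟨u, v, w, H⟩ := h
  obtain ⟨s⟩ := (inferInstance : Nonempty S)
  refine hasRank_of_hasRankT (I := I) (T := Fin r) hn (by simp) ?_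
  refine ⟨fun t i j => u t (s, i, j), fun t i j => v t (s, i, j), fun t i j => w t (s, i, j), ?_⟩
  intro i j j' k k' l
  rw [← H]
  simp [DSM]

theorem omega_le_of_DSM [Nonempty S] {a r : ℕ} (h : Rk (DSM S I) r)
    (hr : r ≤ a * Fintype.card S) (hI : 2 ≤ Fintype.card I) :
    ((Fintype.card I : ℕ) : ℝ) ^ omega ≤ a := by
  have h1 : ∀ N : ℕ, (rk (Fintype.card I ^ N) : ℝ) ≤ (Fintype.card S : ℝ) * (a : ℝ) ^ N := by
    intro N
    have := rk_le ((DSM_pow h hr N).toHasRank (n := Fintype.card I ^ N) (by simp))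
    have h2 : (rk (Fintype.card I ^ N) : ℝ) ≤ ((a ^ N * Fintype.card S : ℕ) : ℝ) := by
      exact_mod_cast this
    rw [mul_comm]
    simpa using h2
  refine omega_le_of_pows hI ?_ h1
  rcases Nat.eq_zero_or_pos a with h0 | h0
  · exfalso
    subst h0
    have h2 := h1 1
    have h3 : 1 ≤ rk (Fintype.card I ^ 1) := one_le_rk (by rw [pow_one]; omega)
    have h4 : (1 : ℝ) ≤ rk (Fintype.card I ^ 1) := by exact_mod_cast h3
    simp at h2
    simp at h4
    rw [h2] at h4
    norm_num at h4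
  · exact_mod_cast h0

/-- The number of summands is a lower bound for the rank. -/
theorem card_le_of_DSM [Nonempty I] {r : ℕ} (h : Rk (DSM S I) r) : Fintype.card S ≤ r := by
  classical
  obtain ⟨u, v, w, H⟩ := h
  obtain ⟨i⟩ := (inferInstance : Nonempty I)
  let A : Matrix S (Fin r) ℂ := fun x t => u t (x, i, i)
  let B : Matrix (Fin r) S ℂ := fun t x => v t (x, i, i) * w t (x, i, i)
  have h1 : A * B = 1 := by
    ext x y
    rw [Matrix.mul_apply, Matrix.one_apply]
    have e : (∑ t, A x t * B t y) = ∑ t, u t (x, i, i) * v t (y, i, i) * w t (y, i, i) :=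
      Finset.sum_congr rfl fun t _ => by simp only [A, B]; ring
    rw [e, ← H]
    simp [DSM]
  have h2 := Matrix.rank_mul_le_left A B
  rw [h1, Matrix.rank_one] at h2
  have h3 := Matrix.rank_le_card_width A
  simp at h3
  omega

end

/-- Comparison of exponential growth. -/
lemma le_of_pow_le_poly {x y D : ℝ} {h k : ℕ} (hx : 0 ≤ x) (hy : 0 ≤ y)
    (H : ∀ N : ℕ, 1 ≤ N → x ^ N ≤ D * ((N : ℝ) * h + 1) ^ k * y ^ N) : x ≤ y := by
  by_contra hcon
  push Not at hcon
  have hx0 : 0 < x := lt_of_le_of_lt hy hcon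
  have hq0 : 0 ≤ y / x := div_nonneg hy hx
  have hq : |y / x| < 1 := by
    rw [abs_of_nonneg hq0, div_lt_one hx0]; exact hcon
  have t := (tendsto_pow_const_mul_const_pow_of_abs_lt_one k hq).const_mul
    (|D| * ((h : ℝ) + 1) ^ k)
  rw [mul_zero] at t
  obtain ⟨N, hN1, hN2⟩ := ((t.eventually (gt_mem_nhds (show (0 : ℝ) < 1 by norm_num))).and
    (eventually_ge_atTop 1)).exists
  have h1 := H N hN2
  have hxN : 0 < x ^ N := pow_pos hx0 N
  have hN1' : (1 : ℝ) ≤ N := by exact_mod_cast hN2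
  have h2 : ((N : ℝ) * h + 1) ^ k ≤ (((h : ℝ) + 1) * N) ^ k := by
    apply pow_le_pow_left₀ (by positivity)
    nlinarith
  have h3 : x ^ N ≤ |D| * (((h : ℝ) + 1) * N) ^ k * y ^ N := by
    refine h1.trans ?_
    apply mul_le_mul_of_nonneg_right _ (pow_nonneg hy N)
    exact mul_le_mul (le_abs_self D) h2 (by positivity) (abs_nonneg D)
  have h4 : 1 ≤ |D| * ((h : ℝ) + 1) ^ k * ((N : ℝ) ^ k * (y / x) ^ N) := by
    rw [div_pow]
    have e : |D| * ((h : ℝ) + 1) ^ k * ((N : ℝ) ^ k * (y ^ N / x ^ N)) =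
        (|D| * (((h : ℝ) + 1) * N) ^ k * y ^ N) / x ^ N := by
      rw [mul_pow]; ring
    rw [e, le_div_iff₀ hxN, one_mul]
    exact h3
  linarith

/-- Schönhage's asymptotic sum inequality for equal formats. -/
theorem BRk.DSM_le {s Q r : ℕ} (hs : 1 ≤ s) (hQ : 1 ≤ Q) (H : BRk (DSM (Fin s) (Fin Q)) r) :
    (s : ℝ) * (Q : ℝ) ^ omega ≤ r := by
  obtain ⟨h, hh⟩ := H.pow
  have hs0 : (0 : ℝ) < s := by exact_mod_cast hs
  have hQ0 : (0 : ℝ) < Q := by exact_mod_cast hQ
  refine le_of_pow_le_poly (D := 2) (h := h) (k := 2) (by positivity) (Nat.cast_nonneg r) ?_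
  intro N hN
  set rN : ℕ := r ^ N * (N * h + 1) ^ 2 with hrN
  have h1 : Rk (DSM (Fin N → Fin s) (Fin N → Fin Q)) rN := by
    refine ((hh N).comp (fun x : (Fin N → Fin s) × (Fin N → Fin Q) × (Fin N → Fin Q) =>
      fun t => (x.1 t, x.2.1 t, x.2.2 t)) (fun x : (Fin N → Fin s) × (Fin N → Fin Q) ×
      (Fin N → Fin Q) => fun t => (x.1 t, x.2.1 t, x.2.2 t)) (fun x : (Fin N → Fin s) ×
      (Fin N → Fin Q) × (Fin N → Fin Q) => fun t => (x.1 t, x.2.1 t, x.2.2 t))).congr ?_
    intro x y z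
    simp only [kp, DSM]
    rw [Finset.prod_ite_zero]
    simp only [Finset.mem_univ, forall_true_left, Finset.prod_const_one]
    congr 1
    simp only [funext_iff, eq_iff_iff]
    constructor
    · intro h t
      exact ⟨h.1 t, h.2.1 t, h.2.2.1 t, h.2.2.2.1 t, h.2.2.2.2 t⟩
    · intro h
      exact ⟨fun t => (h t).1, fun t => (h t).2.1, fun t => (h t).2.2.1, fun t => (h t).2.2.2.1,
        fun t => (h t).2.2.2.2⟩
  have : Nonempty (Fin N → Fin s) := ⟨fun _ => ⟨0, hs⟩⟩
  have : Nonempty (Fin N → Fin Q) := ⟨fun _ => ⟨0, hQ⟩⟩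
  have hcS : Fintype.card (Fin N → Fin s) = s ^ N := by simp
  have hcQ : Fintype.card (Fin N → Fin Q) = Q ^ N := by simp
  have h2 := card_le_of_DSM h1
  rw [hcS] at h2
  have h2' : ((s : ℝ)) ^ N ≤ rN := by exact_mod_cast h2
  have hsN : (0 : ℝ) < (s : ℝ) ^ N := pow_pos hs0 N
  set a : ℕ := ⌈(rN : ℝ) / (s : ℝ) ^ N⌉₊ with ha
  have ha1 : (rN : ℝ) / (s : ℝ) ^ N ≤ a := Nat.le_ceil _
  have ha2 : (a : ℝ) < (rN : ℝ) / (s : ℝ) ^ N + 1 := Nat.ceil_lt_add_one (by positivity)
  have ha3 : (1 : ℝ) ≤ (rN : ℝ) / (s : ℝ) ^ N := by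
    rw [le_div_iff₀ hsN, one_mul]; exact h2'
  have ha4 : rN ≤ a * Fintype.card (Fin N → Fin s) := by
    rw [hcS]
    rw [div_le_iff₀ hsN] at ha1
    exact_mod_cast ha1
  have h3 : ((Q : ℝ) ^ N) ^ omega ≤ 2 * ((rN : ℝ) / (s : ℝ) ^ N) := by
    rcases Nat.lt_or_ge 1 Q with hQ2 | hQ2
    · have hcard2 : 2 ≤ Fintype.card (Fin N → Fin Q) := by
        rw [hcQ]
        calc 2 ≤ Q := hQ2
          _ = Q ^ 1 := (pow_one Q).symm
          _ ≤ Q ^ N := Nat.pow_le_pow_right (by omega) hN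
      have := omega_le_of_DSM h1 ha4 hcard2
      rw [hcQ] at this
      push_cast at this
      linarith
    · have : Q = 1 := by omega
      subst this
      simp only [Nat.cast_one, one_pow, Real.one_rpow]
      linarith
  have h4 : ((Q : ℝ) ^ N) ^ omega = ((Q : ℝ) ^ omega) ^ N := by
    rw [← Real.rpow_natCast, ← Real.rpow_natCast, ← Real.rpow_mul hQ0.le, ← Real.rpow_mul hQ0.le,
      mul_comm]
  rw [h4, mul_div_assoc', le_div_iff₀ hsN] at h3
  rw [mul_pow, mul_comm]
  refine h3.trans (le_of_eq ?_)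
  rw [hrN]
  push_cast
  ring

end Pool.Agent.Y538.Par
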